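import Pool.Agent.H94.EGC.S1

/-!
# EGC: existence and comparison of segments; the shadow of a segment
-/

set_option autoImplicit false

namespace Pool.EGC

open Finset

/-- The largest element of a finite set. -/
theorem h40_mx (hL : LXOStmt) {m : ℕ} (T : Finset (Fin m → ℕ)) (hT : T.Nonempty) :
    ∃ x ∈ T, ∀ y ∈ T, lx y x ∨ y = x := by
  classical
  induction hT using Finset.Nonempty.cons_induction with
  | singleton a => exact ⟨a, Finset.mem_singleton_self a, fun y hy => Or.inr (by simpa using hy)⟩
  | cons a s ha hs ih =>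
    obtain ⟨x, hx, h⟩ := ih
    rcases (hL m x a a).2.2.1 with h1 | h1 | h1
    · refine ⟨a, Finset.mem_cons_self a s, fun y hy => ?_⟩
      rw [Finset.mem_cons] at hy
      rcases hy with hy | hy
      · exact Or.inr hy
      · rcases h y hy with h2 | h2
        · exact Or.inl ((hL m y x a).2.1 h2 h1)
        · rw [h2]
          exact Or.inl h1
    · refine ⟨x, Finset.mem_cons.2 (Or.inr hx), fun y hy => ?_⟩
      rw [Finset.mem_cons] at hy
      rcases hy with hy | hy
      · rw [hy, ← h1]
        exact Or.inr rfl
      · exact h y hy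
    · refine ⟨x, Finset.mem_cons.2 (Or.inr hx), fun y hy => ?_⟩
      rw [Finset.mem_cons] at hy
      rcases hy with hy | hy
      · rw [hy]
        exact Or.inl h1
      · exact h y hy

/-- SGE. -/
theorem t_SGE (hL : LXOStmt) : SGEStmt := by
  classical
  intro m c d
  constructor
  · intro s
    induction s with
    | zero =>
      intro _
      exact ⟨∅, ⟨Finset.empty_subset _, fun x hx => absurd hx (Finset.notMem_empty x)⟩, rfl⟩
    | succ s ih =>
      intro hs
      obtain ⟨A, hA, hc⟩ := ih (by omega)
      have h1 : (Mo c d \ A).Nonempty := by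
        rw [Finset.nonempty_iff_ne_empty]
        intro h
        rw [Finset.sdiff_eq_empty_iff_subset] at h
        have := Finset.card_le_card h
        omega
      obtain ⟨x, hx, h2⟩ := h40_mx hL _ h1
      rw [Finset.mem_sdiff] at hx
      refine ⟨insert x A, ⟨Finset.insert_subset hx.1 hA.1, fun z hz y hy hzy => ?_⟩, ?_⟩
      · rw [Finset.mem_insert] at hz ⊢
        by_cases hyA : y ∈ A
        · exact Or.inr hyA
        · rcases hz with hz | hz
          · rcases h2 y (Finset.mem_sdiff.2 ⟨hy, hyA⟩) with h3 | h3
            · rw [hz] at hzy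
              exact absurd ((hL m x y x).2.1 hzy h3) (hL m x x x).1
            · exact Or.inl h3
          · exact absurd (hA.2 z hz y hy hzy) hyA
      · rw [Finset.card_insert_of_notMem hx.2, hc]
  · intro A B hA hB hc a ha
    by_contra haB
    have h1 : B ⊆ A := by
      intro b hb
      rcases (hL m a b a).2.2.1 with h2 | h2 | h2
      · exact hA.2 a ha b (hB.1 hb) h2
      · rw [← h2]
        exact ha
      · exact absurd (hB.2 b hb a (hA.1 ha) h2) haB
    have h2 : B ⊂ A := ⟨h1, fun h => haB (h ha)⟩
    have := Finset.card_lt_card h2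
    omega

/-- SUP. -/
theorem t_SUP (hL : LXOStmt) (hM : MOMStmt) : SUPStmt := by
  classical
  intro m c d A hA
  refine ⟨Finset.filter_subset _ _, fun z hz y hy hzy => ?_⟩
  obtain ⟨hz1, x, hx, i, hzx⟩ := ((hM m c d z).2 A z).1 hz
  obtain ⟨hy1, hy2⟩ := (hM m c (d + 1) y).1.1 hy
  obtain ⟨hx1, hx2⟩ := (hM m c d x).1.1 (hA.1 hx)
  have hne : (Finset.univ.filter fun q => y q ≠ 0).Nonempty := by
    rw [Finset.nonempty_iff_ne_empty]
    intro h
    have h1 : ∑ q, y q = 0 := Finset.sum_eq_zero fun q _ => by
      by_contra hq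
      have : q ∈ Finset.univ.filter fun q => y q ≠ 0 :=
        Finset.mem_filter.2 ⟨Finset.mem_univ q, hq⟩
      rw [h] at this
      exact Finset.notMem_empty q this
    omega
  obtain ⟨k, hk, hmax⟩ := Finset.exists_max_image _ (fun q => q) hne
  rw [Finset.mem_filter] at hk
  have hk0 : y k ≠ 0 := hk.2
  have hkq : ∀ q, k < q → y q = 0 := by
    intro q hq
    by_contra h
    exact absurd (hmax q (Finset.mem_filter.2 ⟨Finset.mem_univ q, h⟩)) (not_le.2 hq)
  obtain ⟨y', hy'⟩ : ∃ y' : Fin m → ℕ, y' = fun q => if q = k then y k - 1 else y q := ⟨_, rfl⟩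
  have hyy : y = y' + Pi.single k 1 := by
    funext q
    rw [hy', Pi.add_apply]
    by_cases h : q = k
    · subst h
      rw [if_pos rfl, Pi.single_eq_same]
      omega
    · rw [if_neg h, Pi.single_eq_of_ne h, add_zero]
  have hsum : ∑ q, y' q = d := by
    have h1 : ∑ q, y q = ∑ q, y' q + 1 := by
      conv_lhs => rw [hyy]
      simp only [Pi.add_apply]
      rw [Finset.sum_add_distrib, Finset.sum_pi_single']
      simp
    omega
  have hle : ∀ q, y' q ≤ y q := by
    intro q
    rw [hyy, Pi.add_apply]
    exact Nat.le_add_right _ _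
  have hyM : y' ∈ Mo c d := (hM m c d y').1.2 ⟨hsum, fun q hq => (hle q).trans (hy2 q hq)⟩
  have hyq : ∀ q, k < q → y' q = 0 := fun q hq => by
    have := hle q
    rw [hkq q hq] at this
    omega
  have hyA : y' ∈ A := by
    rcases (hL m x y' x).2.2.1 with h1 | h1 | h1
    · exact hA.2 x hx y' hyM h1
    · rw [← h1]
      exact hx
    · exfalso
      rcases lt_or_ge k i with hki | hki
      · obtain ⟨p, p1, p2⟩ := h1
        have hpk : p < k := by
          by_contra hcon
          have hkp : k ≤ p := not_lt.1 hcon
          have h2 : ∑ q, y' q < ∑ q, x q := by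
            refine Finset.sum_lt_sum (fun q _ => ?_) ⟨p, Finset.mem_univ p, p2⟩
            rcases lt_trichotomy q p with h3 | h3 | h3
            · exact (p1 q h3).le
            · rw [h3]
              exact p2.le
            · rw [hyq q (lt_of_le_of_lt hkp h3)]
              exact Nat.zero_le _
          omega
        have h2 : lx y z := by
          rw [hyy, hzx]
          refine ⟨p, fun q hq => ?_, ?_⟩
          · rw [Pi.add_apply, Pi.add_apply, Pi.single_eq_of_ne (hq.trans hpk).ne,
              Pi.single_eq_of_ne (hq.trans (hpk.trans hki)).ne, p1 q hq]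
          · rw [Pi.add_apply, Pi.add_apply, Pi.single_eq_of_ne hpk.ne,
              Pi.single_eq_of_ne (hpk.trans hki).ne]
            exact p2
        exact (hL m y y y).1 ((hL m y z y).2.1 h2 hzy)
      · have h2 : lx (y' + Pi.single i 1) z := by
          rw [hzx]
          exact (hL m y' x (Pi.single i 1)).2.2.2.1.2 h1
        have h3 : lx y z := by
          rcases hki.lt_or_eq with h4 | h4
          · have h5 := (hL m y' y' y').2.2.2.2 i k h4
            rw [← hyy] at h5
            exact (hL m y (y' + Pi.single i 1) z).2.1 h5 h2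
          · rw [h4, ← hyy] at h2
            exact h2
        exact (hL m y y y).1 ((hL m y z y).2.1 h3 hzy)
  exact ((hM m c d y).2 A y).2 ⟨hy, y', hyA, k, hyy⟩

end Pool.EGC
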